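import Pool.Agent.E8helper74.FC.Kimura

/-!
# Chow-Künneth decompositions and cutting and pasting

Let `k` be a field (perfect, for example algebraically closed). `KimuraTheory k K D` (`Pool.Agent.E8helper74.FC`)
lists the properties which are used of Voevodsky's category `D` of geometric motives with rational coefficients, of
the motives with compact supports `M^c(X)` of the separated schemes `X` of finite type over `k` (localization,
`M^c(X × 𝔸^1) = M^c(X)(1)[2]`, finite free coverings and finite quotients, no positive morphisms between the motives
of smooth and proper schemes, generation by such motives), of a Weil cohomology `H` with coefficients in `K`, and of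
the finite-dimensional motives of Kimura and O'Sullivan (`Kim`). For smooth and proper `X` of dimension `d`,
`M^c(X) = h(X)`, `End (h X) = CH^d(X × X)_ℚ`, `Kuenneth (M^c(X))` says that all Künneth projectors of `X` are
algebraic, and `HasCK d (M^c(X))` is a Chow-Künneth decomposition of `X`.

`Cut c G` is the smallest class of schemes over `k` which

* contains the schemes with `G`, and the affine schemes given by systems of polynomials `f_1, ..., f_s` in any number
  of variables over finitely generated `k`-algebras `A` of dimension at most `c`, such that the exponents of the `f_l`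
  are independent (`Split N f` for some `N > 0`);
* is closed under isomorphisms, under passing from two of `Z`, `X`, `X ∖ Z` to the third (`Z` closed in `X`), from
  `Spec B` to `Spec A` if `B ⊇ A` is a finite free `A`-algebra, from `Spec B` to `Spec B^Γ` for a finite group `Γ`,
  and from `Spec A` to `Spec A[t]`.

We prove that all smooth and proper `X` in `Cut c G` are finite-dimensional and have a Chow-Künneth decomposition, if
the schemes with `G` and the smooth and proper schemes of dimension at most `c` are finite-dimensional with algebraic
Künneth projectors. This condition is known for `c = 1` and the class `G` of all smooth and proper schemes which are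
finite-dimensional with algebraic Künneth projectors (products of curves, abelian varieties, ...).
-/

set_option autoImplicit false

open CategoryTheory CategoryTheory.Limits AlgebraicGeometry Pool.Agent.Y116.UV
open Pool.Agent.E8helper74.FC

namespace Pool.Agent.Results.MP_638e8a_ag.CutAndPasteCKH74

universe v u

/-- `X` is smooth and proper, its motive is finite-dimensional, and its Künneth projectors are algebraic. -/
def Tame {k : Type} [Field k] {K : Type} [Field K] {D : Type u} [Category.{v} D] [Preadditive D]
    [HasZeroObject D] [HasShift D ℤ] [∀ n : ℤ, (shiftFunctor D n).Additive] [Pretriangulated D]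
    (T : KimuraTheory k K D) (X : Sch k) : Prop :=
  SmoothProper X ∧ T.Kim (T.Mc X) ∧ T.Kuenneth (T.Mc X)

theorem result (k : Type) [Field k] (K : Type) [Field K] (D : Type u) [Category.{v} D]
    [Preadditive D] [HasZeroObject D] [HasShift D ℤ] [∀ n : ℤ, (shiftFunctor D n).Additive]
    [Pretriangulated D] [IsTriangulated D] (T : KimuraTheory k K D) :
    (∀ (c : ℕ) (G : Sch k → Prop), (∀ Y, G Y → Tame T Y) →
      (∀ Y : Sch k, SmoothProper Y → DimLE c Y → Tame T Y) →
      ∀ X : Sch k, SmoothProper X → Cut c G X →
        Tame T X ∧ ∀ d : ℕ, DimLE d X → T.HasCK d (T.Mc X)) ∧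
    ∀ X : Sch k, SmoothProper X → Cut 1 (Tame T) X →
      Tame T X ∧ ∀ d : ℕ, DimLE d X → T.HasCK d (T.Mc X) := by
  have h1 : ∀ (c : ℕ) (G : Sch k → Prop), (∀ Y, G Y → Tame T Y) →
      (∀ Y : Sch k, SmoothProper Y → DimLE c Y → Tame T Y) →
      ∀ X : Sch k, SmoothProper X → Cut c G X →
        Tame T X ∧ ∀ d : ℕ, DimLE d X → T.HasCK d (T.Mc X) := by
    intro c G hG hc X hX h
    obtain ⟨M, hM, hr⟩ := T.toMotiveTheory.decomposition (fun Y hY => (hG Y hY).1) hX h
    have hK : T.Kuenneth (T.Mc X) := by
      obtain ⟨r⟩ := hr
      refine T.toMotiveTheory.kuenneth_retract r (T.toMotiveTheory.kuenneth_sum (fun Y hY => ?_) hM)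
      rcases hY with hY | hY
      · exact T.toMotiveTheory.kuenneth_curveProd (fun Z hZ hZ' => (hc Z hZ hZ').2.2) hY
      · exact (hG Y hY).2.2
    have hF : T.Kim (T.Mc X) := by
      refine T.kim_retract _ _ (T.kim_sums (fun Y hY => ?_) hM) hr
      rcases hY with hY | hY
      · exact T.kim_curveProd (fun Z hZ hZ' => (hc Z hZ hZ').2.1) hY
      · exact (hG Y hY).2.1
    exact ⟨⟨hX, hF, hK⟩, fun d hd => T.hasCK_of_kim hF hK d (T.degrees X d hX hd)⟩
  refine ⟨h1, fun X hX h => h1 1 (Tame T) (fun _ h => h) (fun Y hY hY' => ?_) X hX h⟩
  refine ⟨hY, T.kim_curve Y hY hY', T.surfaces Y hY (hY'.trans ?_)⟩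
  exact_mod_cast (by norm_num : (1 : ℕ) ≤ 2)

end Pool.Agent.Results.MP_638e8a_ag.CutAndPasteCKH74
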