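import Pool.Agent.E8helper64.CK.Hml

/-!
# Self-dual Chow-Künneth decompositions: a criterion modulo homological equivalence

`𝒞` is a preadditive category with `ℚ`-linear structure, for instance the category of Chow motives over
a field, and `R j` are additive functors to vector spaces, for instance the groups `H^j` of a Weil
cohomology. `M` is an object with `R j M = 0` for `j > 2 * d` and with an anti-involution `τ` of its
ring of endomorphisms such that `R (2 * d - j) (τ f) = 0` if `R j f = 0`, for instance the motive of a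
smooth projective variety `X` of dimension `d` with the transposition of correspondences.

`HomNil R N e` says that the endomorphisms of the object cut out by the projector `e` of `N` whose
realisations are zero are nilpotent. By a theorem of Kimura this holds if this object is
finite-dimensional.

Theorem. The following are equivalent.

1. `M` has a self-dual Chow-Künneth decomposition with terms which are nil in this sense in all
  degrees `i ≠ d`; there is no condition on the term of degree `d`.
2. `M` has some Chow-Künneth decomposition with nil terms in the degrees `i < d`.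
3. For each `i < d` there are an object `N` with a nil projector `e` and morphisms `f : M ⟶ N`,
  `g : N ⟶ M` such that `f ≫ e ≫ g` acts as the identity on `R i M` and as zero on `R j M`, `j ≠ i`.

If `N i`, `e i`, `f i`, `g i` are as in 3, there is a decomposition as in 1 whose term of degree `i`
is a direct summand of the object cut out by `e i`, for all `i < d`.

The condition 3 concerns motives modulo homological equivalence: the part `h^i` of the homological
motive exists and is a direct summand of the homological motive of something finite-dimensional.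

Examples. (a) Let the Lefschetz standard conjecture hold for `X` and let `Y` be a smooth ample divisor
of `X` whose Chow motive is finite-dimensional. For `i < d` the operator `L^(d-i)` on `H^i(X)` factors
through the restriction `H^i(X) → H^i(Y)`, and its inverse is algebraic. So 3 holds with `N = h(Y)`.
(b) Let `X` be a smooth complete intersection of ample divisors in a variety `A` with finite-dimensional
motive for which the Lefschetz standard conjecture holds. As `H^i(A) → H^i(X)` is bijective for
`i < d`, 3 holds with `N = h(A)`.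
-/

set_option autoImplicit false

namespace Pool.Agent.Results.MP_638e8a_ag.HomologicalCriterionH64

open CategoryTheory Pool.Agent.Y110.CK Pool.Agent.E8helper64.CK

universe v u w

theorem result {𝒞 : Type u} [Category.{v} 𝒞] [Preadditive 𝒞] [Linear ℚ 𝒞] (K : Type w) [Field K]
    (R : ℕ → 𝒞 ⥤ ModuleCat.{w} K) [∀ j, (R j).Additive] (M : 𝒞) (d : ℕ)
    (hM : ∀ j, 2 * d < j → (R j).map (𝟙 M) = 0)
    (τ : (M ⟶ M) → (M ⟶ M)) (τ_add : ∀ f g, τ (f + g) = τ f + τ g)
    (τ_comp : ∀ f g, τ (f ≫ g) = τ g ≫ τ f) (τ_τ : ∀ f, τ (τ f) = f)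
    (τ_real : ∀ j, j ≤ 2 * d → ∀ f, (R j).map f = 0 → (R (2 * d - j)).map (τ f) = 0) :
    List.TFAE [
      ∃ ρ : ℕ → (M ⟶ M), IsCK R M (2 * d + 1) ρ ∧ (∀ i, i ≤ 2 * d → τ (ρ i) = ρ (2 * d - i)) ∧
        ∀ i, i ≤ 2 * d → i ≠ d → HomNil R M (ρ i),
      ∃ (n : ℕ) (π : ℕ → (M ⟶ M)), IsCK R M n π ∧ ∀ i, i < d → HomNil R M (π i),
      ∀ i, i < d → ∃ (N : 𝒞) (e : N ⟶ N) (f : M ⟶ N) (g : N ⟶ M), e ≫ e = e ∧ HomNil R N e ∧
        (R i).map (f ≫ e ≫ g) = 𝟙 _ ∧ ∀ j, i ≠ j → (R j).map (f ≫ e ≫ g) = 0] ∧
    ∀ (N : ℕ → 𝒞) (e : ∀ i, N i ⟶ N i) (f : ∀ i, M ⟶ N i) (g : ∀ i, N i ⟶ M),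
      (∀ i, i < d → e i ≫ e i = e i) → (∀ i, i < d → HomNil R (N i) (e i)) →
      (∀ i, i < d → (R i).map (f i ≫ e i ≫ g i) = 𝟙 _) →
      (∀ i, i < d → ∀ j, i ≠ j → (R j).map (f i ≫ e i ≫ g i) = 0) →
      ∃ ρ : ℕ → (M ⟶ M), IsCK R M (2 * d + 1) ρ ∧ (∀ i, i ≤ 2 * d → τ (ρ i) = ρ (2 * d - i)) ∧
        (∀ i, i ≤ 2 * d → i ≠ d → HomNil R M (ρ i)) ∧
        ∀ i, i < d → ∃ (a : M ⟶ N i) (b : N i ⟶ M), ρ i = a ≫ e i ≫ b :=
  ⟨self_dual_tfae R M d hM τ τ_add τ_comp τ_τ τ_real,
    from_data R M d hM τ τ_add τ_comp τ_τ τ_real⟩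

end Pool.Agent.Results.MP_638e8a_ag.HomologicalCriterionH64
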