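import Pool.Agent.E8helper64.CK.Cat
import Pool.Agent.E8helper64.CK.Exa

/-!
Chow-Künneth decompositions and direct summands.

`𝒞` is a preadditive category, for instance the category of Chow motives over a field with rational
coefficients, and `R j` are additive functors to vector spaces, for instance the groups `H^j` of a
Weil cohomology. `IsCK R M n π` (defined in `Pool.Agent.Y110.CK.Defs`) says that the orthogonal
projectors `π 0, ..., π (n - 1)` form a Chow-Künneth decomposition `M = M 0 ⊕ ... ⊕ M (n - 1)`,
and `HasCK R M` says that there is one.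

`NilComposites M π i` says that all the composites `M i ⟶ ⨁_{j ≠ i} M j ⟶ M i` are nilpotent. These
composites are cohomologically trivial. So the condition holds if the endomorphisms of `M i` which
act as zero on the realisations are nilpotent (`TrivNil`), for instance if `M i` is
finite-dimensional in the sense of Kimura; it also holds if `Hom (M i, M j) = 0` for `i < j`.

If `M` has a Chow-Künneth decomposition with nilpotent composites for all `i` but one, then each
direct summand `B` of `M` has a Chow-Künneth decomposition `B = B 0 ⊕ ... ⊕ B (n - 1)`, with `B i` a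
direct summand of `M i`. So if `M = h(X)` has a Chow-Künneth decomposition with only one term which
is not known to be finite-dimensional, then also the quotients of `X` by finite groups and the
varieties dominated by `X` in the same dimension have Chow-Künneth decompositions.

The condition is sharp: it can not be weakened to all `i` but two. There are a `ℚ`-linear abelian
category with functors `R j` to vector spaces over `ℚ`, and an object `M` which has a Chow-Künneth
decomposition in the degrees `0` and `1`, finite-dimensional realisations and no nonzero direct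
summand with zero realisations, and a direct summand of `M` without a Chow-Künneth decomposition.
-/

set_option autoImplicit false

namespace Pool.Agent.Results.MP_638e8a_ag.SummandsH64

open CategoryTheory Pool.Agent.Y110.CK Pool.Agent.E8helper64.CK

universe v u w

theorem result :
    (∀ {𝒞 : Type u} [Category.{v} 𝒞] [Preadditive 𝒞] (K : Type w) [Field K]
      (R : ℕ → 𝒞 ⥤ ModuleCat.{w} K) [∀ j, (R j).Additive] (M : 𝒞) (n m : ℕ)
      (π : ℕ → (M ⟶ M)), IsCK R M n π →
      -- direct summands
      ((∀ i, i ≠ m → NilComposites M π i) → ∀ B : 𝒞, Retract B M →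
        ∃ ρ : ℕ → (B ⟶ B), IsCK R B n ρ ∧
          (∀ i, ∃ (a : B ⟶ M) (b : M ⟶ B), ρ i = a ≫ π i ≫ b) ∧
          (∀ i, TrivNil R M π i → TrivNil R B ρ i)) ∧
      -- two sufficient conditions for `NilComposites`
      (∀ i, TrivNil R M π i → NilComposites M π i) ∧
      ((∀ i j, i < j → ∀ f : M ⟶ M, π i ≫ f ≫ π j = 0) → ∀ i, NilComposites M π i)) ∧
    -- the condition for all `i` but one is sharp
    (∃ (𝒞 : Type 1) (_ : Category.{0} 𝒞) (_ : Abelian 𝒞) (_ : Linear ℚ 𝒞)
      (R : ℕ → 𝒞 ⥤ ModuleCat.{0} ℚ) (_ : ∀ j, (R j).Additive) (M : 𝒞) (π : ℕ → (M ⟶ M)),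
      IsCK R M 2 π ∧ (∀ j, Module.Finite ℚ ((R j).obj M)) ∧
      (∀ ε : M ⟶ M, ε ≫ ε = ε → (∀ j, (R j).map ε = 0) → ε = 0) ∧
      ∃ B : 𝒞, Nonempty (Retract B M) ∧ ¬ HasCK R B) := by
  refine ⟨?_, exa⟩
  intro 𝒞 _ _ K _ R _ M n m π h
  refine ⟨fun hnil B r => ?_, fun i hi => nil_of_triv R h hi,
    fun hhom i => nil_of_hom h.sum h.zero hhom i⟩
  obtain ⟨ρ, h1, h2⟩ := isCK_retract R h m hnil r
  refine ⟨ρ, h1, h2, fun i hi => ?_⟩
  obtain ⟨a, b, hab⟩ := h2 i
  exact triv_retract R hi hab (h.idem i)

end Pool.Agent.Results.MP_638e8a_ag.SummandsH64
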