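import Pool.Agent.E8helper64.CK.Uniq

/-!
Uniqueness of Chow-Künneth decompositions.

`𝒞` is a preadditive category, for instance the category of Chow motives over a field with rational
coefficients, and `R j` are additive functors to vector spaces, for instance the groups `H^j` of a
Weil cohomology. `IsCK R M n π` (defined in `Pool.Agent.Y110.CK.Defs`) says that the orthogonal
projectors `π 0, ..., π (n - 1)` form a Chow-Künneth decomposition `M = M 0 ⊕ ... ⊕ M (n - 1)`.
`NilComposites M π i` says that the composites `M i ⟶ ⨁_{j ≠ i} M j ⟶ M i` are nilpotent. This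
holds if the endomorphisms of `M i` which act as zero on the realisations are nilpotent, for instance
if `M i` is finite-dimensional in the sense of Kimura.

Let `M` be an object with finite-dimensional realisations and with a Chow-Künneth decomposition `π`
with nilpotent composites for all `i` but one, for instance with only one term which is not
known to be finite-dimensional. Let `ρ` be any other Chow-Künneth decomposition
`M = N 0 ⊕ ... ⊕ N (n' - 1)`. Then for each `i` the objects `M i` and `N i` have isomorphic direct
summands whose complements in `M i` and in `N i` have zero realisations. In particular, if `M` has no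
nonzero direct summand with zero realisations then `ρ` is the conjugate of `π` by an automorphism
of `M`.
-/

set_option autoImplicit false

namespace Pool.Agent.Results.MP_638e8a_ag.UniqueH64

open CategoryTheory Pool.Agent.Y110.CK Pool.Agent.E8helper64.CK

universe v u w

theorem result {𝒞 : Type u} [Category.{v} 𝒞] [Preadditive 𝒞] (K : Type w) [Field K]
    (R : ℕ → 𝒞 ⥤ ModuleCat.{w} K) [∀ j, (R j).Additive] (M : 𝒞)
    (fd : ∀ j, Module.Finite K ((R j).obj M)) (n m : ℕ) (π : ℕ → (M ⟶ M)) (h : IsCK R M n π)
    (hnil : ∀ i, i ≠ m → NilComposites M π i) (n' : ℕ) (ρ : ℕ → (M ⟶ M)) (h' : IsCK R M n' ρ) :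
    (∀ i, ∃ a b : M ⟶ M, a ≫ b ≫ a = a ∧ b ≫ a ≫ b = b ∧ ρ i ≫ a = a ∧ a ≫ π i = a ∧
      π i ≫ b = b ∧ b ≫ ρ i = b ∧
      ∀ j, (R j).map (ρ i - a ≫ b) = 0 ∧ (R j).map (π i - b ≫ a) = 0) ∧
    ((∀ ε : M ⟶ M, ε ≫ ε = ε → (∀ j, (R j).map ε = 0) → ε = 0) →
      ∃ u : M ≅ M, ∀ i, ρ i = u.hom ≫ π i ≫ u.inv) :=
  ⟨fun i => common R h m hnil fd h' i, fun noph => unique R h m hnil fd noph h'⟩

end Pool.Agent.Results.MP_638e8a_ag.UniqueH64
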